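import Pool.Agent.TH107.AT.Cb4
import Pool.Agent.TH107.AT.Cl
import Mathlib.RingTheory.OreLocalization.Ring
import Mathlib.RingTheory.OreLocalization.NonZeroDivisors

/-!
Embeddings of group rings over division rings in division rings: amenable locally indicable groups
(Ore), and groups which are residually such (ultraproducts).
-/

set_option autoImplicit false
set_option linter.unusedSectionVars false

open Filter
open scoped Pointwise nonZeroDivisors

namespace Pool.Agent.TH107.MV

open Pool.Agent.TH107.RF (LI nzd_of_LI uniqueProds_of_LI)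
open Pool.Agent.TH714.PF (Fol)
open Pool.Agent.TH107.AT (ResBy Good LocGood)

universe u

variable {G : Type} [Group G] {K : Type u} [DivisionRing K]

/-- the left Ore condition -/
theorem ore (hnz : NoZeroDivisors (MonoidAlgebra K G)) (hF : Fol G) (p q : MonoidAlgebra K G)
    (hp : p ≠ 0) : ∃ u v : MonoidAlgebra K G, u ≠ 0 ∧ u * q = v * p := by
  classical
  set Θ := p.coeff.support ∪ q.coeff.support with hΘ
  obtain ⟨Φ, hΦ, hcard0⟩ := hF.ex Θ (1 / 2) (by norm_num)
  set Ψ := Φ * Θ with hΨ
  have hcard : Ψ.card < 2 * Φ.card := by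
    have h1 : (0 : ℝ) < Φ.card := by exact_mod_cast hΦ.card_pos
    have h3 : ((Φ * Θ).card : ℝ) < 2 * Φ.card := by linarith
    exact_mod_cast h3
  let E : ({g // g ∈ Φ} → K) →ₗ[K] MonoidAlgebra K G :=
    { toFun := fun u => ∑ g : {g // g ∈ Φ}, MonoidAlgebra.single (g : G) (u g)
      map_add' := by
        intro u v
        rw [← Finset.sum_add_distrib]
        refine Finset.sum_congr rfl fun g _ => ?_
        rw [Pi.add_apply, MonoidAlgebra.single_add]
      map_smul' := by
        intro c u
        rw [RingHom.id_apply, Finset.smul_sum]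
        refine Finset.sum_congr rfl fun g _ => ?_
        rw [Pi.smul_apply, MonoidAlgebra.smul_single] }
  have hEc : ∀ (u : {g // g ∈ Φ} → K) (g : {g // g ∈ Φ}), (E u).coeff (g : G) = u g := by
    intro u g
    change (∑ g : {g // g ∈ Φ}, MonoidAlgebra.single (g : G) (u g)).coeff (g : G) = u g
    rw [MonoidAlgebra.coeff_sum, Finsupp.finset_sum_apply, Finset.sum_eq_single g]
    · rw [MonoidAlgebra.coeff_single, Finsupp.single_eq_same]
    · intro b _ hb
      rw [MonoidAlgebra.coeff_single, Finsupp.single_apply, if_neg]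
      intro h
      exact hb (Subtype.ext h)
    · intro h
      exact absurd (Finset.mem_univ _) h
  have hEs : ∀ (u : {g // g ∈ Φ} → K), (E u).coeff.support ⊆ Φ := by
    intro u x hx
    by_contra hcon
    rw [Finsupp.mem_support_iff] at hx
    apply hx
    change (∑ g : {g // g ∈ Φ}, MonoidAlgebra.single (g : G) (u g)).coeff x = 0
    rw [MonoidAlgebra.coeff_sum, Finsupp.finset_sum_apply]
    refine Finset.sum_eq_zero fun g _ => ?_
    rw [MonoidAlgebra.coeff_single, Finsupp.single_apply, if_neg]
    rintro rfl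
    exact hcon g.2
  let T : (({g // g ∈ Φ} → K) × ({g // g ∈ Φ} → K)) →ₗ[K] ({g // g ∈ Ψ} → K) :=
    { toFun := fun w x => (E w.1 * q - E w.2 * p).coeff (x : G)
      map_add' := by
        intro w w'
        funext x
        simp only [Prod.fst_add, Prod.snd_add, map_add, add_mul, Pi.add_apply]
        rw [← Finsupp.add_apply, ← MonoidAlgebra.coeff_add]
        congr 2
        abel
      map_smul' := by
        intro c w
        funext x
        simp only [Prod.smul_fst, Prod.smul_snd, map_smul, RingHom.id_apply, Pi.smul_apply,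
          smul_mul_assoc]
        rw [← smul_sub]
        rfl }
  have hker : LinearMap.ker T ≠ ⊥ := by
    apply LinearMap.ker_ne_bot_of_finrank_lt
    rw [Module.finrank_prod, Module.finrank_fintype_fun_eq_card, Module.finrank_fintype_fun_eq_card,
      Fintype.card_coe, Fintype.card_coe]
    omega
  obtain ⟨⟨u, v⟩, huv, hne⟩ := Submodule.exists_mem_ne_zero_of_ne_bot hker
  have hsup : ∀ (w : {g // g ∈ Φ} → K) (a : MonoidAlgebra K G), a.coeff.support ⊆ Θ →
      ∀ x, x ∉ Ψ → (E w * a).coeff x = 0 := by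
    intro w a ha x hx
    by_contra hcon
    apply hx
    have h1 := MonoidAlgebra.support_coeff_mul_subset (E w) a (Finsupp.mem_support_iff.2 hcon)
    rw [Finset.mem_mul] at h1
    obtain ⟨y, hy, z, hz, rfl⟩ := h1
    exact Finset.mem_mul.2 ⟨y, hEs w hy, z, ha hz, rfl⟩
  have heq : E u * q = E v * p := by
    rw [← sub_eq_zero]
    apply MonoidAlgebra.ext
    ext x
    by_cases hx : x ∈ Ψ
    · exact congrFun (LinearMap.mem_ker.1 huv) ⟨x, hx⟩
    · rw [MonoidAlgebra.coeff_sub, Finsupp.sub_apply,
        hsup u q Finset.subset_union_right x hx, hsup v p Finset.subset_union_left x hx, sub_zero]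
      rfl
  refine ⟨E u, E v, ?_, heq⟩
  intro hu
  apply hne
  have hv : E v = 0 := by
    rw [hu, zero_mul] at heq
    exact (mul_eq_zero.1 heq.symm).resolve_right hp
  have h1 : u = 0 := by
    funext g
    rw [← hEc u g, hu]
    rfl
  have h2 : v = 0 := by
    funext g
    rw [← hEc v g, hv]
    rfl
  rw [h1, h2]
  rfl

/-- the group ring embeds in a division ring -/
def Emb (K : Type u) [DivisionRing K] (G : Type) [Group G] : Prop :=
  ∃ (D : Type u) (_ : DivisionRing D) (f : MonoidAlgebra K G →+* D), Function.Injective f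

theorem Emb.of_injective {H : Type} [Group H] (h : Emb K H) (f : G →* H)
    (hf : Function.Injective f) : Emb K G := by
  obtain ⟨D, _, φ, hφ⟩ := h
  refine ⟨D, inferInstance, φ.comp (MonoidAlgebra.mapDomainRingHom K f), ?_⟩
  exact hφ.comp (MonoidAlgebra.mapDomain_injective hf)

/-- amenable locally indicable groups -/
theorem emb_ore (hG : LI G) (hF : Fol G) : Emb K G := by
  classical
  have hU : UniqueProds G := uniqueProds_of_LI hG
  have hnz : NoZeroDivisors (MonoidAlgebra K G) := inferInstance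
  have hdom : IsDomain (MonoidAlgebra K G) := NoZeroDivisors.to_isDomain _
  have hne : ∀ s : (MonoidAlgebra K G)⁰, (s : MonoidAlgebra K G) ≠ 0 :=
    fun s => nonZeroDivisors.coe_ne_zero s
  choose! U V hU0 hUV using fun (p q : MonoidAlgebra K G) (hp : p ≠ 0) => ore hnz hF p q hp
  let inst : OreLocalization.OreSet ((MonoidAlgebra K G)⁰) :=
    { ore_right_cancel := fun r₁ r₂ s h => ⟨1, by
        rw [mul_right_cancel₀ (hne s) h]⟩
      oreNum := fun r s => V s r
      oreDenom := fun r s => ⟨U s r, mem_nonZeroDivisors_of_ne_zero (hU0 s r (hne s))⟩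
      ore_eq := fun r s => hUV s r (hne s) }
  refine ⟨OreLocalization ((MonoidAlgebra K G)⁰) (MonoidAlgebra K G), inferInstance,
    OreLocalization.numeratorRingHom, ?_⟩
  exact OreLocalization.numeratorHom_inj inf_le_left

/-! ### ultraproducts -/

section Ultra

variable {I : Type} (U : Ultrafilter I) (D : I → Type u) [∀ i, DivisionRing (D i)]

/-- equality almost everywhere -/
def uc : RingCon (∀ i, D i) where
  r x y := ∀ᶠ i in (U : Filter I), x i = y i
  iseqv := ⟨fun x => Eventually.of_forall fun _ => rfl,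
    fun h => h.mono fun _ h => h.symm,
    fun h h' => (h.and h').mono fun _ h => h.1.trans h.2⟩
  mul' h h' := (h.and h').mono fun i h => by
    rw [Pi.mul_apply, Pi.mul_apply, h.1, h.2]
  add' h h' := (h.and h').mono fun i h => by
    rw [Pi.add_apply, Pi.add_apply, h.1, h.2]

theorem uc_iff (x y : ∀ i, D i) : ((x : (uc U D).Quotient) = (y : (uc U D).Quotient)) ↔
    ∀ᶠ i in (U : Filter I), x i = y i := (uc U D).eq

theorem uc_nontrivial : Nontrivial (uc U D).Quotient := by
  refine ⟨((0 : ∀ i, D i) : (uc U D).Quotient), ((1 : ∀ i, D i) : (uc U D).Quotient), ?_⟩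
  intro h
  rw [uc_iff] at h
  obtain ⟨i, hi⟩ := h.exists
  exact zero_ne_one hi

open Classical in
theorem uc_unit (a : (uc U D).Quotient) : IsUnit a ∨ a = 0 := by
  obtain ⟨x, rfl⟩ := (uc U D).mk'_surjective a
  by_cases h : ∀ᶠ i in (U : Filter I), x i = 0
  · right
    exact (uc_iff U D x 0).2 h
  · left
    have h1 : ∀ᶠ i in (U : Filter I), x i ≠ 0 := by
      have := Ultrafilter.eventually_not.2 h
      exact this
    have h2 : ((x : (uc U D).Quotient)) * (((fun i => (x i)⁻¹ : ∀ i, D i)) : (uc U D).Quotient)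
        = 1 := by
      change ((x * (fun i => (x i)⁻¹) : ∀ i, D i) : (uc U D).Quotient) =
        ((1 : ∀ i, D i) : (uc U D).Quotient)
      rw [uc_iff]
      exact h1.mono fun i hi => mul_inv_cancel₀ hi
    have h3 : (((fun i => (x i)⁻¹ : ∀ i, D i)) : (uc U D).Quotient) * ((x : (uc U D).Quotient))
        = 1 := by
      change (((fun i => (x i)⁻¹) * x : ∀ i, D i) : (uc U D).Quotient) =
        ((1 : ∀ i, D i) : (uc U D).Quotient)
      rw [uc_iff]
      exact h1.mono fun i hi => inv_mul_cancel₀ hi
    exact ⟨⟨_, _, h2, h3⟩, rfl⟩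

end Ultra

/-- residually embeddable groups -/
theorem emb_res (h : ∀ S : Finset G, (∀ s ∈ S, s ≠ 1) →
    ∃ (Q : Type) (_ : Group Q) (f : G →* Q), Emb K Q ∧ ∀ s ∈ S, f s ≠ 1) : Emb K G := by
  classical
  have h' : ∀ S : Finset G, ∃ (Q : Type) (_ : Group Q) (f : G →* Q), Emb K Q ∧
      Set.InjOn f (S : Set G) := by
    intro S
    obtain ⟨Q, _, f, hQ, hf⟩ := h (((S ×ˢ S).image fun p => p.1⁻¹ * p.2).filter (· ≠ 1))
      (fun s hs => (Finset.mem_filter.1 hs).2)
    refine ⟨Q, inferInstance, f, hQ, ?_⟩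
    intro a ha b hb hab
    by_contra hne
    refine hf (a⁻¹ * b) ?_ ?_
    · rw [Finset.mem_filter]
      refine ⟨Finset.mem_image.2 ⟨(a, b), Finset.mem_product.2 ⟨ha, hb⟩, rfl⟩, ?_⟩
      intro h1
      exact hne (inv_mul_eq_one.1 h1)
    · rw [map_mul, map_inv, hab, inv_mul_cancel]
  choose Q iQ f hQ hf using h'
  choose D iD φ hφ using hQ
  let U : Ultrafilter (Finset G) := Ultrafilter.of atTop
  have hU : ∀ T : Finset G, ∀ᶠ S in (U : Filter (Finset G)), T ⊆ S := by
    intro T
    exact Ultrafilter.of_le atTop (eventually_ge_atTop T)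
  have hnt := uc_nontrivial U D
  let Φ : MonoidAlgebra K G →+* (∀ S, D S) :=
    Pi.ringHom fun S => (φ S).comp (MonoidAlgebra.mapDomainRingHom K (f S))
  refine ⟨(uc U D).Quotient, DivisionRing.ofIsUnitOrEqZero (uc_unit U D),
    ((uc U D).mk').comp Φ, ?_⟩
  rw [injective_iff_map_eq_zero]
  intro x hx
  by_contra hne
  have h1 : ∀ᶠ S in (U : Filter (Finset G)), Φ x S = (0 : ∀ S, D S) S :=
    (uc_iff U D (Φ x) 0).1 hx
  obtain ⟨S, hS1, hS2⟩ := (h1.and (hU x.coeff.support)).exists
  have h2 : φ S (MonoidAlgebra.mapDomainRingHom K (f S) x) = 0 := hS1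
  have h3 : MonoidAlgebra.mapDomainRingHom K (f S) x = 0 := by
    apply hφ S
    rw [h2, map_zero]
  apply hne
  apply MonoidAlgebra.ext
  ext g
  by_cases hg : g ∈ x.coeff.support
  · have h4 : (x.coeff.mapDomain (f S)) (f S g) = x.coeff g :=
      Finsupp.mapDomain_apply' (S := (S : Set G)) x.coeff (by exact_mod_cast hS2) (hf S) (hS2 hg)
    have h5 : (MonoidAlgebra.mapDomainRingHom K (f S) x).coeff (f S g) = x.coeff g := h4
    rw [← h5, h3]
    rfl
  · rw [Finsupp.notMem_support_iff.1 hg]
    rfl

/-- finitely generated residually good groups -/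
theorem emb_of_resGood (h : ResBy Good G) : Emb K G := by
  apply emb_res
  intro S hS
  obtain ⟨Q, _, f, hQ, hf⟩ := h S hS
  exact ⟨Q, inferInstance, f, emb_ore hQ.1 hQ.2.1, hf⟩

/-- group rings over a directed union of subgroups -/
theorem emb_local (h : ∀ H : Subgroup G, H.FG → Emb K H) : Emb K G := by
  classical
  let H : Finset G → Subgroup G := fun S => Subgroup.closure (S : Set G)
  have hH : ∀ S, (H S).FG := fun S => ⟨S, rfl⟩
  choose D iD ψ hψ using fun S => h (H S) (hH S)
  let U : Ultrafilter (Finset G) := Ultrafilter.of atTop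
  have hU : ∀ T : Finset G, ∀ᶠ S in (U : Filter (Finset G)), T ⊆ S := by
    intro T
    exact Ultrafilter.of_le atTop (eventually_ge_atTop T)
  have hmem : ∀ T : Finset G, ∀ᶠ S in (U : Filter (Finset G)), ∀ g ∈ T, g ∈ H S := by
    intro T
    exact (hU T).mono fun S hS g hg => Subgroup.subset_closure (hS hg)
  let a : G → (∀ S, D S) := fun g S =>
    if hg : g ∈ H S then ψ S (MonoidAlgebra.single ⟨g, hg⟩ 1) else 1
  have ha : ∀ g S (hg : g ∈ H S), a g S = ψ S (MonoidAlgebra.single ⟨g, hg⟩ 1) :=
    fun g S hg => dif_pos hg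
  let A : G →* (uc U D).Quotient :=
    { toFun := fun g => (a g : (uc U D).Quotient)
      map_one' := by
        refine (uc_iff U D _ 1).2 (Eventually.of_forall fun S => ?_)
        rw [ha 1 S (H S).one_mem]
        exact (ψ S).map_one
      map_mul' := by
        intro g k
        refine (uc_iff U D _ (a g * a k)).2 ?_
        filter_upwards [hmem {g, k}] with S hS
        have hg := hS g (by simp)
        have hk := hS k (by simp)
        rw [Pi.mul_apply, ha g S hg, ha k S hk, ha (g * k) S ((H S).mul_mem hg hk), ← map_mul,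
          MonoidAlgebra.single_mul_single, mul_one]
        rfl }
  let b : K → (∀ S, D S) := fun c S => ψ S (MonoidAlgebra.single 1 c)
  let F : K →+* (uc U D).Quotient :=
    (uc U D).mk'.comp (Pi.ringHom fun S => (ψ S).comp MonoidAlgebra.singleOneRingHom)
  have hF : ∀ c, F c = (b c : (uc U D).Quotient) := fun c => rfl
  have hcomm : ∀ c g, Commute (F c) (A g) := by
    intro c g
    refine (uc_iff U D (b c * a g) (a g * b c)).2 ?_
    filter_upwards [hmem {g}] with S hS
    have hg := hS g (by simp)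
    rw [Pi.mul_apply, Pi.mul_apply, ha g S hg]
    change ψ S (MonoidAlgebra.single 1 c) * _ = _ * ψ S (MonoidAlgebra.single 1 c)
    rw [← map_mul, ← map_mul, MonoidAlgebra.single_mul_single, MonoidAlgebra.single_mul_single,
      one_mul, mul_one, mul_one, one_mul]
  have key : ∀ x : MonoidAlgebra K G, ∃ r : ∀ S, D S,
      MonoidAlgebra.liftNCRingHom F A hcomm x = (r : (uc U D).Quotient) ∧
      ∀ᶠ S in (U : Filter (Finset G)), ∃ y : MonoidAlgebra K (H S),
        MonoidAlgebra.mapDomainRingHom K (H S).subtype y = x ∧ r S = ψ S y := by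
    intro x
    induction x using MonoidAlgebra.induction_linear with
    | zero =>
      refine ⟨0, map_zero _, Eventually.of_forall fun S => ⟨0, map_zero _, ?_⟩⟩
      rw [map_zero]
      rfl
    | add x y hx hy =>
      obtain ⟨r, hr, hx⟩ := hx
      obtain ⟨t, ht, hy⟩ := hy
      refine ⟨r + t, by rw [map_add, hr, ht]; rfl, ?_⟩
      filter_upwards [hx, hy] with S hxS hyS
      obtain ⟨u, hu, hru⟩ := hxS
      obtain ⟨v, hv, hrv⟩ := hyS
      exact ⟨u + v, by rw [map_add, hu, hv], by rw [Pi.add_apply, hru, hrv, map_add]⟩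
    | single g c =>
      refine ⟨b c * a g, MonoidAlgebra.liftNCRingHom_single F A hcomm g c, ?_⟩
      filter_upwards [hmem {g}] with S hS
      have hg := hS g (by simp)
      refine ⟨MonoidAlgebra.single ⟨g, hg⟩ c, MonoidAlgebra.mapDomain_single, ?_⟩
      rw [Pi.mul_apply, ha g S hg]
      change ψ S (MonoidAlgebra.single 1 c) * _ = _
      rw [← map_mul, MonoidAlgebra.single_mul_single, one_mul, mul_one]
  have hnt := uc_nontrivial U D
  refine ⟨(uc U D).Quotient, DivisionRing.ofIsUnitOrEqZero (uc_unit U D),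
    MonoidAlgebra.liftNCRingHom F A hcomm, ?_⟩
  rw [injective_iff_map_eq_zero]
  intro x hx
  obtain ⟨r, hr, hrS⟩ := key x
  have hx' : MonoidAlgebra.liftNCRingHom F A hcomm x = 0 := hx
  rw [hr] at hx'
  have h0 : ∀ᶠ S in (U : Filter (Finset G)), r S = (0 : ∀ S, D S) S := (uc_iff U D r 0).1 hx'
  obtain ⟨S, ⟨y, hy, hyr⟩, hS⟩ := (hrS.and h0).exists
  have hy0 : y = 0 := by
    apply hψ S
    rw [← hyr, map_zero]
    exact hS
  rw [← hy, hy0, map_zero]

/-- groups all of whose finitely generated subgroups are residually good -/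
theorem emb_of_locGood (h : LocGood G) : Emb K G :=
  emb_local fun H hH => emb_of_resGood (h H hH)

/-- such groups are locally indicable -/
theorem li_of_locGood (h : LocGood G) : LI G := by
  intro L hL hne
  obtain ⟨x, hx⟩ := (L.ne_bot_iff_exists_ne_one).1 hne
  obtain ⟨Q, _, f, hQ, hf⟩ := h L hL {x} (by
    intro s hs
    rw [Finset.mem_singleton] at hs
    rw [hs]
    exact hx)
  have hfx : f x ≠ 1 := hf x (Finset.mem_singleton_self x)
  have hfg : Group.FG L := (Group.fg_iff_subgroup_fg L).2 hL
  have hr : f.range.FG := by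
    rw [← Group.fg_iff_subgroup_fg]
    exact Group.fg_range f
  have hrne : f.range ≠ ⊥ := by
    intro h1
    have : f x ∈ f.range := ⟨x, rfl⟩
    rw [h1, Subgroup.mem_bot] at this
    exact hfx this
  obtain ⟨φ, ⟨_, k, rfl⟩, hk⟩ := hQ.1 f.range hr hrne
  exact ⟨φ.comp f.rangeRestrict, k, hk⟩

end Pool.Agent.TH107.MV
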