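import Pool.Agent.TH107.MV.Emb

/-!
Group rings of extensions of groups with separating series by amenable locally indicable groups.
-/

set_option autoImplicit false
set_option linter.unusedSectionVars false

namespace Pool.Agent.TH107.MV

open Pool.Agent.TH107.RF Pool.Agent.TH107.RF.RFilt
open Pool.Agent.TH107.AT
open Pool.Agent.TH714.PF (Fol)

universe u

/-- groups with a separating series with torsion-free abelian factors -/
def STow (N : Type) [Group N] : Prop :=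
  ∃ E : ℕ → Subgroup N, E 0 = ⊤ ∧ (∀ i, E (i + 1) ≤ E i) ∧
    (∀ i, ∀ x ∈ E i, ∀ y ∈ E i, x * y * x⁻¹ * y⁻¹ ∈ E (i + 1)) ∧
    (∀ i, ∀ x ∈ E i, ∀ n : ℕ, n ≠ 0 → x ^ n ∈ E (i + 1) → x ∈ E (i + 1)) ∧
    ∀ x, (∀ i, x ∈ E i) → x = 1

theorem STow.of_injective {N N' : Type} [Group N] [Group N'] (h : STow N') (f : N →* N')
    (hf : Function.Injective f) : STow N := by
  obtain ⟨E, h0, ha, hc, hp, hs⟩ := h
  refine ⟨fun i => (E i).comap f, ?_, fun i => Subgroup.comap_mono (ha i), ?_, ?_, ?_⟩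
  · change (E 0).comap f = ⊤
    rw [h0, Subgroup.comap_top]
  · intro i x hx y hy
    change f (x * y * x⁻¹ * y⁻¹) ∈ E (i + 1)
    simp only [map_mul, map_inv]
    exact hc i _ hx _ hy
  · intro i x hx n hn hxn
    have h1 : f (x ^ n) ∈ E (i + 1) := hxn
    rw [map_pow] at h1
    exact hp i _ hx n hn h1
  · intro x hx
    apply hf
    rw [map_one]
    exact hs _ hx

section
variable {S : Type} [Fintype S] [DecidableEq S] {M : CoxeterMatrix S}

theorem stow_pure (hR : RankTwo M) : STow (toCox M).ker := by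
  set F := filP S (RingHom.ker ev1) unit_nat 0 with hF
  set P := PR M with hP
  set b := bf S (LaurentPolynomial ℝ) with hb
  let φ : (toCox M).ker →* Art M := (toCox M).ker.subtype
  have hφ : Function.Injective φ := (toCox M).ker.subtype_injective
  have hφ1 : ∀ x, φ x ∈ KF P b F 1 := fun x => pure_le x.2
  refine ⟨fun i => (KF P b F (i + 1)).comap φ, ?_, ?_, ?_, ?_, ?_⟩
  · rw [eq_top_iff]
    intro x _
    exact hφ1 x
  · intro i x hx
    exact KF_anti P b F (Nat.le_succ _) hx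
  · intro i x hx y hy
    have := KF_comm P b F hx hy
    rw [← map_inv, ← map_inv, ← map_mul, ← map_mul, ← map_mul] at this
    exact KF_anti P b F (by omega) this
  · intro i x _ n hn hx
    have h2 : (φ x) ^ n ∈ KF P b F (i + 1 + 1) := by rw [← map_pow]; exact hx
    exact KF_pure P b F hn (hφ1 x) h2
  · intro x hx
    apply hφ
    rw [map_one]
    refine filP_sep b (fun g h => faithful0 hR h) ker_ev1_ne 0 (φ x) fun i => ?_
    exact KF_anti P b F (Nat.le_succ _) (hx i)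

theorem stow_cl {C : Type} [DecidableEq C] {κ : S → C} {m : ℕ} (hm : 3 ≤ m)
    (hin : ∀ s t : S, s ≠ t → κ s = κ t → M s t = 0 ∨ M s t = m)
    (hout : ∀ s t, κ s ≠ κ t → M s t = 0 ∨ M s t = 2) (hR : RankTwo M) : STow (Art M) := by
  refine ⟨EE hm hin hout, rfl, EE_anti hm hin hout, EE_comm hm hin hout, EE_pure hm hin hout, ?_⟩
  intro x hx
  refine filP_sep (bk κ c0) (fun g hg => shk_faithful κ c0 (PR M) (fun g hg => faithful0 hR hg) g hg)
      (ker_evm_ne m) 1 x fun i => ?_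
  exact KF_anti _ _ _ (Nat.le_succ i) (hx (i + 3)).2

end

/-- groups with a finite series with abelian factors are amenable -/
theorem folL_of_tower {G : Type} [Group G] (D : ℕ → Subgroup G) (k : ℕ) (h0 : D 0 = ⊤)
    (hk : D k = ⊥) (ha : ∀ i, D (i + 1) ≤ D i)
    (hc : ∀ i, ∀ x ∈ D i, ∀ y ∈ D i, x * y * x⁻¹ * y⁻¹ ∈ D (i + 1)) : HJI.Fol.Fol G := by
  classical
  have key : ∀ j, j ≤ k → HJI.Fol.Fol (D (k - j)) := by
    intro j
    induction j with
    | zero =>
      intro _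
      rw [Nat.sub_zero, hk]
      exact HJI.Fol.fol_of_finite
    | succ j ih =>
      intro hj
      obtain ⟨i, hi⟩ : ∃ i, k - (j + 1) = i := ⟨_, rfl⟩
      have hi2 : k - j = i + 1 := by omega
      have ih2 := ih (by omega)
      rw [hi2] at ih2
      rw [hi]
      set K := (D (i + 1)).subgroupOf (D i) with hK
      have hn : K.Normal := by
        constructor
        intro n hn g
        have h1 : (n : G) * g * (n : G)⁻¹ * (g : G)⁻¹ ∈ D (i + 1) := hc i n n.2 g g.2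
        have h2 : ((g * n * g⁻¹ : D i) : G) = ((n : G) * g * (n : G)⁻¹ * (g : G)⁻¹)⁻¹ * n := by
          push_cast
          group
        rw [hK, Subgroup.mem_subgroupOf, h2]
        exact (D (i + 1)).mul_mem ((D (i + 1)).inv_mem h1) hn
      have h1 : HJI.Fol.Fol (D i ⧸ K) := by
        apply HJI.Fol.fol_comm
        intro a b
        obtain ⟨a, rfl⟩ := QuotientGroup.mk_surjective a
        obtain ⟨b, rfl⟩ := QuotientGroup.mk_surjective b
        rw [← QuotientGroup.mk_mul, ← QuotientGroup.mk_mul, QuotientGroup.eq]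
        rw [hK, Subgroup.mem_subgroupOf]
        have h2 := hc i (b : G)⁻¹ (D i |>.inv_mem b.2) (a : G)⁻¹ (D i |>.inv_mem a.2)
        have h3 : (((a * b)⁻¹ * (b * a) : D i) : G) =
            (b : G)⁻¹ * (a : G)⁻¹ * ((b : G)⁻¹)⁻¹ * ((a : G)⁻¹)⁻¹ := by
          push_cast
          group
        rw [h3]
        exact h2
      apply HJI.Fol.fol_ext (QuotientGroup.mk' K) _ h1
      let f : (QuotientGroup.mk' K).ker →* D (i + 1) :=
        { toFun := fun x => ⟨x.1.1, (QuotientGroup.eq_one_iff (N := K) x.1).1 x.2⟩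
          map_one' := rfl
          map_mul' := fun x y => rfl }
      apply HJI.Fol.fol_of_injective f _ ih2
      intro x y hxy
      have h3 : ((f x : D (i + 1)) : G) = ((f y : D (i + 1)) : G) := congrArg Subtype.val hxy
      exact Subtype.ext (Subtype.ext h3)
  have h1 := key k le_rfl
  rw [Nat.sub_self, h0] at h1
  exact HJI.Fol.fol_of_injective (Subgroup.topEquiv (G := G)).symm.toMonoidHom
    (Subgroup.topEquiv (G := G)).symm.injective h1

/-- quotients by the members of a series -/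
theorem tow_quot {H : Type} [Group H] (E : ℕ → Subgroup H) (k : ℕ) [hn : (E k).Normal]
    (h0 : E 0 = ⊤) (ha : ∀ i, E (i + 1) ≤ E i)
    (hc : ∀ i, ∀ x ∈ E i, ∀ y ∈ E i, x * y * x⁻¹ * y⁻¹ ∈ E (i + 1))
    (hp : ∀ i, ∀ x ∈ E i, ∀ n : ℕ, n ≠ 0 → x ^ n ∈ E (i + 1) → x ∈ E (i + 1)) :
    LI (H ⧸ E k) ∧ HJI.Fol.Fol (H ⧸ E k) := by
  classical
  have hanti : ∀ i j, i ≤ j → E j ≤ E i := fun i j h => antitone_nat_of_succ_le ha h
  set π := QuotientGroup.mk' (E k) with hπ
  have hker : ∀ x : H, π x = 1 ↔ x ∈ E k := fun x => QuotientGroup.eq_one_iff x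
  let D : ℕ → Subgroup (H ⧸ E k) := fun i => (E i).map π
  have hD0 : D 0 = ⊤ := by
    change (E 0).map π = ⊤
    rw [h0]
    exact Subgroup.map_top_of_surjective π (QuotientGroup.mk'_surjective _)
  have hDk : D k = ⊥ := by
    change (E k).map π = ⊥
    rw [eq_bot_iff]
    rintro _ ⟨x, hx, rfl⟩
    exact Subgroup.mem_bot.2 ((hker x).2 hx)
  have hDa : ∀ i, D (i + 1) ≤ D i := fun i => Subgroup.map_mono (ha i)
  have hDc : ∀ i, ∀ x ∈ D i, ∀ y ∈ D i, x * y * x⁻¹ * y⁻¹ ∈ D (i + 1) := by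
    rintro i _ ⟨x, hx, rfl⟩ _ ⟨y, hy, rfl⟩
    exact ⟨x * y * x⁻¹ * y⁻¹, hc i x hx y hy, by simp only [map_mul, map_inv]⟩
  have hDt : ∀ i, ∀ x ∈ D i, ∀ n : ℕ, n ≠ 0 → x ^ n ∈ D (i + 1) → x ∈ D (i + 1) := by
    rintro i _ ⟨x, hx, rfl⟩ n hn ⟨y, hy, hxy⟩
    by_cases hik : i + 1 ≤ k
    · have h2 : x ^ n ∈ E (i + 1) := by
        rw [← map_pow] at hxy
        have h3 : y⁻¹ * x ^ n ∈ E k := by
          have h4 : π (y⁻¹ * x ^ n) = 1 := by
            rw [map_mul, map_inv, hxy, inv_mul_cancel]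
          exact (hker _).1 h4
        have h5 := (E (i + 1)).mul_mem hy (hanti _ _ hik h3)
        rwa [mul_inv_cancel_left] at h5
      exact ⟨x, hp _ x hx n hn h2, rfl⟩
    · have h2 : π x = 1 := (hker x).2 (hanti _ _ (by omega) hx)
      rw [h2]
      exact (D (i + 1)).one_mem
  exact ⟨li_of_tower D k hD0 hDk hDc hDt, folL_of_tower D k hD0 hDk hDa hDc⟩

/-- extensions of locally indicable groups -/
theorem li_ext {G Q : Type} [Group G] [Group Q] (f : G →* Q) (hK : LI f.ker) (hQ : LI Q) :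
    LI G := by
  intro L hL hne
  by_cases hle : L ≤ f.ker
  · obtain ⟨x, hx⟩ := (L.ne_bot_iff_exists_ne_one).1 hne
    refine LI.of_hom hK hL (L.subtype.codRestrict f.ker fun y => hle y.2) ⟨x, fun h => hx ?_⟩
    exact Subtype.ext (congrArg (fun z : f.ker => (z : G)) h)
  · obtain ⟨x, hxL, hx⟩ := SetLike.not_le_iff_exists.1 hle
    exact LI.of_hom hQ hL (f.comp L.subtype) ⟨⟨x, hxL⟩, fun h => hx h⟩

variable {G : Type} [Group G] {K : Type u} [DivisionRing K]

/-- quotients of an extension -/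
theorem ext_res (N : Subgroup G) [hN : N.Normal] (hNt : STow N) (hQ : LI (G ⧸ N))
    (hF : HJI.Fol.Fol (G ⧸ N)) (S : Finset G) (hS : ∀ s ∈ S, s ≠ 1) :
    ∃ (Q : Type) (_ : Group Q) (f : G →* Q), (LI Q ∧ Fol Q) ∧ ∀ s ∈ S, f s ≠ 1 := by
  classical
  obtain ⟨E, h0, ha, hc, hp, hs⟩ := hNt
  let T : ℕ → Subgroup G := fun i => ((E i).map N.subtype).normalCore
  have hT : ∀ i x, x ∈ T i ↔ ∀ g : G, ∃ y ∈ E i, (y : G) = g * x * g⁻¹ := by
    intro i x
    constructor
    · intro h g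
      obtain ⟨y, hy, hyx⟩ := h g
      exact ⟨y, hy, hyx⟩
    · intro h g
      obtain ⟨y, hy, hyx⟩ := h g
      exact ⟨y, hy, hyx⟩
  have hTN : ∀ i x, x ∈ T i → x ∈ N := by
    intro i x hx
    obtain ⟨y, -, hy⟩ := (hT i x).1 hx 1
    rw [one_mul, inv_one, mul_one] at hy
    rw [← hy]
    exact y.2
  have hTE : ∀ i (x : N), (x : G) ∈ T i → x ∈ E i := by
    intro i x hx
    obtain ⟨y, hy, hyx⟩ := (hT i x).1 hx 1
    rw [one_mul, inv_one, mul_one] at hyx
    rwa [← Subtype.ext hyx]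
  have hTa : ∀ i, T (i + 1) ≤ T i := by
    intro i x hx
    rw [hT] at hx ⊢
    intro g
    obtain ⟨y, hy, hyx⟩ := hx g
    exact ⟨y, ha i hy, hyx⟩
  have hTanti : ∀ i j, i ≤ j → T j ≤ T i := fun i j h => antitone_nat_of_succ_le hTa h
  have hT0 : ∀ x, x ∈ T 0 ↔ x ∈ N := by
    intro x
    refine ⟨hTN 0 x, fun hx => (hT 0 x).2 fun g => ?_⟩
    exact ⟨⟨g * x * g⁻¹, hN.conj_mem x hx g⟩, by rw [h0]; trivial, rfl⟩
  have hTc : ∀ i, ∀ x ∈ T i, ∀ y ∈ T i, x * y * x⁻¹ * y⁻¹ ∈ T (i + 1) := by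
    intro i x hx y hy
    rw [hT] at hx hy ⊢
    intro g
    obtain ⟨a, haE, hax⟩ := hx g
    obtain ⟨b, hbE, hby⟩ := hy g
    refine ⟨a * b * a⁻¹ * b⁻¹, hc i a haE b hbE, ?_⟩
    push_cast
    rw [hax, hby]
    group
  have hTp : ∀ i, ∀ x ∈ T i, ∀ n : ℕ, n ≠ 0 → x ^ n ∈ T (i + 1) → x ∈ T (i + 1) := by
    intro i x hx n hn hxn
    rw [hT] at hx hxn ⊢
    intro g
    obtain ⟨a, haE, hax⟩ := hx g
    obtain ⟨b, hbE, hbx⟩ := hxn g
    refine ⟨a, hp i a haE n hn ?_, hax⟩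
    have : a ^ n = b := by
      apply Subtype.ext
      push_cast
      rw [hax, hbx, conj_pow]
    rwa [this]
  -- a common level
  obtain ⟨k, hk⟩ : ∃ k, ∀ s ∈ S, s ∉ T k := by
    have hex : ∀ s : S, ∃ k, (s : G) ∉ T k := by
      intro s
      by_contra hcon
      push Not at hcon
      have hsN : (s : G) ∈ N := hTN 0 _ (hcon 0)
      refine hS s s.2 ?_
      have := hs ⟨s, hsN⟩ fun i => hTE i _ (hcon i)
      exact congrArg Subtype.val this
    choose κ hκ using hex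
    refine ⟨Finset.univ.sup κ, fun s hs h => ?_⟩
    have h2 : κ ⟨s, hs⟩ ≤ Finset.univ.sup κ := Finset.le_sup (Finset.mem_univ _)
    exact hκ ⟨s, hs⟩ (hTanti _ _ h2 h)
  have hTk : (T k).Normal := Subgroup.normalCore_normal _
  -- the chain inside N
  let E' : ℕ → Subgroup N := fun i => (T i).subgroupOf N
  have hE'k : (E' k).Normal := inferInstanceAs ((T k).subgroupOf N).Normal
  obtain ⟨hLI, hFol⟩ := tow_quot E' k (by
      rw [eq_top_iff]
      intro x _
      exact (hT0 x).2 x.2) (fun i x hx => hTa i hx) (fun i x hx y hy => hTc i x hx y hy)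
      (fun i x hx n hn hxn => hTp i x hx n hn hxn)
  -- the map to G ⧸ N
  let ρ : G ⧸ T k →* G ⧸ N := QuotientGroup.map (T k) N (MonoidHom.id G) (fun x hx => hTN k x hx)
  have hρ : ∀ x : G, ρ (QuotientGroup.mk' (T k) x) = QuotientGroup.mk' N x := fun x => rfl
  let ι : N ⧸ E' k →* G ⧸ T k := QuotientGroup.map (E' k) (T k) N.subtype (fun x hx => hx)
  have hι : Function.Injective ι := by
    rw [injective_iff_map_eq_one]
    intro x hx
    obtain ⟨x, rfl⟩ := QuotientGroup.mk'_surjective (E' k) x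
    have h1 : QuotientGroup.mk' (T k) (x : G) = 1 := hx
    have h2 : (x : G) ∈ T k := (QuotientGroup.eq_one_iff (N := T k) (x : G)).1 h1
    exact (QuotientGroup.eq_one_iff (N := E' k) x).2 h2
  have hker : ρ.ker ≤ ι.range := by
    intro x hx
    obtain ⟨x, rfl⟩ := QuotientGroup.mk'_surjective (T k) x
    have h1 : QuotientGroup.mk' N x = 1 := hx
    have h2 : x ∈ N := (QuotientGroup.eq_one_iff (N := N) x).1 h1
    exact ⟨QuotientGroup.mk' (E' k) ⟨x, h2⟩, rfl⟩
  let e : N ⧸ E' k ≃* ι.range := MonoidHom.ofInjective hι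
  let j : ρ.ker →* N ⧸ E' k := e.symm.toMonoidHom.comp (Subgroup.inclusion hker)
  have hj : Function.Injective j := e.symm.injective.comp (Subgroup.inclusion_injective hker)
  refine ⟨G ⧸ T k, inferInstance, QuotientGroup.mk' (T k), ⟨?_, ?_⟩, ?_⟩
  · refine li_ext ρ ?_ hQ
    intro L hL hne
    obtain ⟨x, hx⟩ := (L.ne_bot_iff_exists_ne_one).1 hne
    refine LI.of_hom hLI hL (j.comp L.subtype) ⟨x, fun h => hx ?_⟩
    have h1 : j (x : ρ.ker) = j 1 := by rw [map_one]; exact h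
    exact Subtype.ext (hj h1)
  · apply fol_of_left
    exact HJI.Fol.fol_ext ρ (HJI.Fol.fol_of_injective j hj hFol) hF
  · intro s hs h
    exact hk s hs ((QuotientGroup.eq_one_iff (N := T k) s).1 h)

theorem emb_ext (N : Subgroup G) [hN : N.Normal] (hNt : STow N) (hQ : LI (G ⧸ N))
    (hF : HJI.Fol.Fol (G ⧸ N)) : Emb K G := by
  apply emb_res
  intro S hS
  obtain ⟨Q, _, f, hQ, hf⟩ := ext_res N hNt hQ hF S hS
  exact ⟨Q, inferInstance, f, emb_ore hQ.1 hQ.2, hf⟩

theorem li_of_ext (N : Subgroup G) [hN : N.Normal] (hNt : STow N) (hQ : LI (G ⧸ N))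
    (hF : HJI.Fol.Fol (G ⧸ N)) : LI G := by
  intro L hL hne
  obtain ⟨x, hx⟩ := (L.ne_bot_iff_exists_ne_one).1 hne
  obtain ⟨Q, _, f, hQ, hf⟩ := ext_res N hNt hQ hF {(x : G)} (by
    intro s hs
    rw [Finset.mem_singleton] at hs
    rw [hs]
    exact fun h => hx (Subtype.ext h))
  exact LI.of_hom hQ.1 hL (f.comp L.subtype) ⟨x, hf x (Finset.mem_singleton_self _)⟩

end Pool.Agent.TH107.MV
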