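import Pool.Agent.TH107.MV.Emb
import Pool.Agent.TH107.LB.RB

/-!
Embeddings of group rings over fields from embeddings over finite fields (specialisation and
ultraproducts).
-/

set_option autoImplicit false
set_option linter.unusedSectionVars false

open Filter

namespace Pool.Agent.TH107.MV

variable {G : Type} [Group G]

/-- specialisation -/
theorem emb_spec {K : Type} [Field K] (C : (F : Type) → [Field F] → Prop)
    (hspec : ∀ T : Finset K, ∃ (A : Subring K) (_ : ∀ x ∈ T, x ∈ A) (F : Type) (_ : Field F)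
      (θ : A →+* F), C F ∧ ∀ x : A, (x : K) ∈ T → x ≠ 0 → θ x ≠ 0)
    (h : ∀ (F : Type) [Field F], C F → Emb F G) : Emb K G := by
  classical
  choose A hA F iF θ hC hθ using hspec
  choose D iD ψ hψ using fun T => h (F T) (hC T)
  let U : Ultrafilter (Finset K) := Ultrafilter.of atTop
  have hU : ∀ T : Finset K, ∀ᶠ S in (U : Filter (Finset K)), T ⊆ S := by
    intro T
    exact Ultrafilter.of_le atTop (eventually_ge_atTop T)
  have hmem : ∀ T : Finset K, ∀ᶠ S in (U : Filter (Finset K)), ∀ c ∈ T, c ∈ A S := by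
    intro T
    exact (hU T).mono fun S hS c hc => hA S c (hS hc)
  let b : K → (∀ T, D T) := fun c T =>
    if hc : c ∈ A T then ψ T (MonoidAlgebra.single 1 (θ T ⟨c, hc⟩)) else 0
  have hb : ∀ c T (hc : c ∈ A T), b c T = ψ T (MonoidAlgebra.single 1 (θ T ⟨c, hc⟩)) :=
    fun c T hc => dif_pos hc
  let a : G → (∀ T, D T) := fun g T => ψ T (MonoidAlgebra.single g 1)
  let B : K →+* (uc U D).Quotient :=
    { toFun := fun c => (b c : (uc U D).Quotient)
      map_one' := by
        refine (uc_iff U D _ 1).2 (Eventually.of_forall fun T => ?_)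
        rw [hb 1 T (A T).one_mem]
        have h1 : θ T ⟨1, (A T).one_mem⟩ = 1 := (θ T).map_one
        rw [h1]
        exact (ψ T).map_one
      map_zero' := by
        refine (uc_iff U D _ 0).2 (Eventually.of_forall fun T => ?_)
        rw [hb 0 T (A T).zero_mem]
        have h1 : θ T ⟨0, (A T).zero_mem⟩ = 0 := (θ T).map_zero
        rw [h1, MonoidAlgebra.single_zero]
        exact (ψ T).map_zero
      map_mul' := by
        intro c d
        refine (uc_iff U D _ (b c * b d)).2 ?_
        filter_upwards [hmem {c, d}] with T hT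
        have hc := hT c (by simp)
        have hd := hT d (by simp)
        rw [Pi.mul_apply, hb c T hc, hb d T hd, hb (c * d) T ((A T).mul_mem hc hd), ← map_mul,
          MonoidAlgebra.single_mul_single, one_mul, ← map_mul]
        rfl
      map_add' := by
        intro c d
        refine (uc_iff U D _ (b c + b d)).2 ?_
        filter_upwards [hmem {c, d}] with T hT
        have hc := hT c (by simp)
        have hd := hT d (by simp)
        rw [Pi.add_apply, hb c T hc, hb d T hd, hb (c + d) T ((A T).add_mem hc hd), ← map_add,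
          ← MonoidAlgebra.single_add, ← map_add]
        rfl }
  let Γ : G →* (uc U D).Quotient :=
    { toFun := fun g => (a g : (uc U D).Quotient)
      map_one' := by
        refine (uc_iff U D _ 1).2 (Eventually.of_forall fun T => ?_)
        exact (ψ T).map_one
      map_mul' := by
        intro g k
        refine (uc_iff U D _ (a g * a k)).2 (Eventually.of_forall fun T => ?_)
        change ψ T (MonoidAlgebra.single (g * k) 1) =
          ψ T (MonoidAlgebra.single g 1) * ψ T (MonoidAlgebra.single k 1)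
        rw [← map_mul, MonoidAlgebra.single_mul_single, mul_one] }
  have hcomm : ∀ c g, Commute (B c) (Γ g) := by
    intro c g
    refine (uc_iff U D (b c * a g) (a g * b c)).2 ?_
    filter_upwards [hmem {c}] with T hT
    have hc := hT c (by simp)
    rw [Pi.mul_apply, Pi.mul_apply, hb c T hc]
    change _ * ψ T (MonoidAlgebra.single g 1) = ψ T (MonoidAlgebra.single g 1) * _
    rw [← map_mul, ← map_mul, MonoidAlgebra.single_mul_single, MonoidAlgebra.single_mul_single,
      one_mul, mul_one, mul_one, one_mul]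
  have key : ∀ x : MonoidAlgebra K G, ∃ r : ∀ T, D T,
      MonoidAlgebra.liftNCRingHom B Γ hcomm x = (r : (uc U D).Quotient) ∧
      ∀ᶠ T in (U : Filter (Finset K)), ∃ y : MonoidAlgebra (A T) G,
        MonoidAlgebra.mapRingHom G (A T).subtype y = x ∧
        r T = ψ T (MonoidAlgebra.mapRingHom G (θ T) y) := by
    intro x
    induction x using MonoidAlgebra.induction_linear with
    | zero =>
      refine ⟨0, map_zero _, Eventually.of_forall fun T => ⟨0, map_zero _, ?_⟩⟩
      rw [map_zero, map_zero]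
      rfl
    | add x y hx hy =>
      obtain ⟨r, hr, hx⟩ := hx
      obtain ⟨t, ht, hy⟩ := hy
      refine ⟨r + t, by rw [map_add, hr, ht]; rfl, ?_⟩
      filter_upwards [hx, hy] with T hxT hyT
      obtain ⟨u, hu, hru⟩ := hxT
      obtain ⟨v, hv, hrv⟩ := hyT
      exact ⟨u + v, by rw [map_add, hu, hv], by rw [Pi.add_apply, hru, hrv, map_add, map_add]⟩
    | single g c =>
      refine ⟨b c * a g, MonoidAlgebra.liftNCRingHom_single B Γ hcomm g c, ?_⟩
      filter_upwards [hmem {c}] with T hT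
      have hc := hT c (by simp)
      refine ⟨MonoidAlgebra.single g ⟨c, hc⟩, ?_, ?_⟩
      · rw [MonoidAlgebra.mapRingHom_single]
        rfl
      · rw [Pi.mul_apply, hb c T hc, MonoidAlgebra.mapRingHom_single]
        change _ * ψ T (MonoidAlgebra.single g 1) = _
        rw [← map_mul, MonoidAlgebra.single_mul_single, one_mul, mul_one]
  have hnt := uc_nontrivial U D
  refine ⟨(uc U D).Quotient, DivisionRing.ofIsUnitOrEqZero (uc_unit U D),
    MonoidAlgebra.liftNCRingHom B Γ hcomm, ?_⟩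
  rw [injective_iff_map_eq_zero]
  intro x hx
  by_contra hne
  obtain ⟨g, hg⟩ : ∃ g, x.coeff g ≠ 0 := by
    by_contra hcon
    push Not at hcon
    apply hne
    apply MonoidAlgebra.ext
    ext g
    rw [hcon g]
    rfl
  obtain ⟨r, hr, hrS⟩ := key x
  have hx' : MonoidAlgebra.liftNCRingHom B Γ hcomm x = 0 := hx
  rw [hr] at hx'
  have h0 : ∀ᶠ T in (U : Filter (Finset K)), r T = (0 : ∀ T, D T) T := (uc_iff U D r 0).1 hx'
  obtain ⟨T, ⟨⟨y, hy, hyr⟩, hT⟩, hTg⟩ := ((hrS.and h0).and (hU {x.coeff g})).exists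
  have hy0 : MonoidAlgebra.mapRingHom G (θ T) y = 0 := by
    apply hψ T
    rw [← hyr, map_zero]
    exact hT
  have h1 : ((y.coeff g : A T) : K) = x.coeff g := by
    rw [← hy, MonoidAlgebra.coeff_mapRingHom]
    rfl
  have h2 : θ T (y.coeff g) = 0 := by
    rw [← MonoidAlgebra.coeff_mapRingHom, hy0]
    rfl
  refine hθ T (y.coeff g) ?_ ?_ h2
  · rw [h1]
    exact hTg (Finset.mem_singleton_self _)
  · intro h3
    apply hg
    rw [← h1, h3]
    rfl

/-- specialisation to finite fields -/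
theorem exists_spec {K : Type} [Field K] (P : ℕ → Prop)
    (hP : ∀ A : Subalgebra ℤ K, A.FG → ∃ p : ℕ, p.Prime ∧ P p ∧ ¬ IsUnit (p : A))
    (T : Finset K) : ∃ (A : Subring K) (_ : ∀ x ∈ T, x ∈ A) (F : Type) (_ : Field F)
      (θ : A →+* F), (Finite F ∧ ∃ p : ℕ, p.Prime ∧ P p ∧ CharP F p) ∧
        ∀ x : A, (x : K) ∈ T → x ≠ 0 → θ x ≠ 0 := by
  classical
  let A : Subalgebra ℤ K := Algebra.adjoin ℤ ((T ∪ T.image fun x => x⁻¹ : Finset K) : Set K)
  have hAfg : A.FG := ⟨_, rfl⟩
  have hAft : Algebra.FiniteType ℤ A := (Subalgebra.fg_iff_finiteType _).1 hAfg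
  obtain ⟨p, hp, hPp, hpu⟩ := hP A hAfg
  have hne : Ideal.span {(p : A)} ≠ ⊤ := by
    rw [Ne, Ideal.span_singleton_eq_top]
    exact hpu
  obtain ⟨m, hm, hpm⟩ := Ideal.exists_le_maximal _ hne
  have hfin : Finite (A ⧸ m) := Pool.Agent.TH107.RF.residue_finite A m
  let iF : Field (A ⧸ m) := Ideal.Quotient.field m
  have hmemT : ∀ x ∈ T, x ∈ A := fun x hx => Algebra.subset_adjoin (by
    rw [Finset.mem_coe, Finset.mem_union]
    exact Or.inl hx)
  have hinv : ∀ x ∈ T, x⁻¹ ∈ A := fun x hx => Algebra.subset_adjoin (by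
    rw [Finset.mem_coe, Finset.mem_union]
    exact Or.inr (Finset.mem_image_of_mem _ hx))
  refine ⟨A.toSubring, hmemT, A ⧸ m, iF, Ideal.Quotient.mk m, ⟨hfin, p, hp, hPp, ?_⟩, ?_⟩
  · rw [CharP.charP_iff_prime_eq_zero hp]
    have h1 : (p : A) ∈ m := hpm (Ideal.mem_span_singleton_self _)
    have h2 : Ideal.Quotient.mk m (p : A) = 0 := Ideal.Quotient.eq_zero_iff_mem.2 h1
    rw [map_natCast] at h2
    exact h2
  · intro x hx hx0 h
    have hx0' : (x : K) ≠ 0 := fun h => hx0 (Subtype.ext h)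
    have h1 : (⟨x, x.2⟩ : A) * ⟨(x : K)⁻¹, hinv _ hx⟩ = 1 := Subtype.ext (mul_inv_cancel₀ hx0')
    have h2 : Ideal.Quotient.mk m ((⟨x, x.2⟩ : A) * ⟨(x : K)⁻¹, hinv _ hx⟩) = 1 := by
      rw [h1, map_one]
    have h3 : Ideal.Quotient.mk m (⟨x, x.2⟩ : A) = 0 := h
    rw [map_mul, h3, zero_mul] at h2
    exact zero_ne_one h2

theorem nonunit_char {K : Type} [Field K] {p : ℕ} (hp : p.Prime) [CharP K p] (A : Subalgebra ℤ K)
    (_ : A.FG) : ∃ q : ℕ, q.Prime ∧ q = p ∧ ¬ IsUnit (q : A) := by
  refine ⟨p, hp, rfl, ?_⟩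
  have h0 : (p : A) = 0 := by
    apply Subtype.ext
    push_cast
    exact CharP.cast_eq_zero K p
  rw [h0, isUnit_zero_iff]
  exact zero_ne_one

theorem nonunit_zero {K : Type} [Field K] [CharZero K] (P : Set ℕ) (hP : P.Infinite)
    (hprime : ∀ p ∈ P, p.Prime) (A : Subalgebra ℤ K)
    (hA : A.FG) : ∃ q : ℕ, q.Prime ∧ q ∈ P ∧ ¬ IsUnit (q : A) := by
  have hAft : Algebra.FiniteType ℤ A := (Subalgebra.fg_iff_finiteType _).1 hA
  have hz : CharZero A := inferInstance
  obtain ⟨N, hN, h⟩ := Pool.Agent.TH107.LB.nonunit_primes' A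
  obtain ⟨p, hp, hpN⟩ := hP.exists_gt N
  refine ⟨p, hprime p hp, hp, h p (hprime p hp) fun hd => ?_⟩
  have := Nat.le_of_dvd (Nat.pos_of_ne_zero hN) hd
  omega

/-- characteristic `p` -/
theorem emb_char {K : Type} [Field K] {p : ℕ} (hp : p.Prime) [CharP K p]
    (h : ∀ H : Subgroup G, H.FG → ∀ (F : Type) [Field F] [Finite F] [CharP F p], Emb F H) :
    Emb K G := by
  apply emb_local
  intro H hH
  refine emb_spec (fun F _ => Finite F ∧ ∃ q : ℕ, q.Prime ∧ q = p ∧ CharP F q)
    (exists_spec (fun q => q = p) (nonunit_char hp)) ?_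
  rintro F _ ⟨hF, q, -, rfl, hq⟩
  exact h H hH F

/-- characteristic zero -/
theorem emb_zero {K : Type} [Field K] [CharZero K] (P : Set ℕ) (hP : P.Infinite)
    (hprime : ∀ p ∈ P, p.Prime)
    (h : ∀ p ∈ P, ∀ H : Subgroup G, H.FG → ∀ (F : Type) [Field F] [Finite F] [CharP F p],
      Emb F H) : Emb K G := by
  apply emb_local
  intro H hH
  refine emb_spec (fun F _ => Finite F ∧ ∃ q : ℕ, q.Prime ∧ q ∈ P ∧ CharP F q)
    (exists_spec (fun q => q ∈ P) (nonunit_zero P hP hprime)) ?_
  rintro F _ ⟨hF, q, -, hqP, hq⟩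
  exact h q hqP H hH F

end Pool.Agent.TH107.MV
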